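import Mathlib
import Pool.Agent.TH968.UST.Defs

/-!
# Wired uniform spanning tree as a factor of i.i.d.: definitions

Definitions used for the positive answer to `MP_688e31_pr`.
-/

set_option autoImplicit false

open MeasureTheory ProbabilityTheory Set Filter Topology
open scoped ENNReal

namespace Pool.Agent.Run7.h59.UF

open Pool.Agent.TH968.UST

/-- i.i.d. uniform labels on `[0,1]`, indexed by `ι`. -/
noncomputable def unif (ι : Type) : Measure (ι → unitInterval) :=
  Measure.infinitePi fun _ => volume

instance (ι : Type) : IsProbabilityMeasure (unif ι) := by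
  unfold unif; infer_instance

/-! ## Finite weighted families -/

open Classical in
/-- The total weight of the sets `T` with `I ⊆ T` and `T ∩ J = ∅`. -/
noncomputable def NN {ι : Type} [Fintype ι] (w : Finset ι → ℝ) (I J : Finset ι) : ℝ :=
  ∑ T ∈ Finset.univ.filter (fun T : Finset ι => I ⊆ T ∧ Disjoint J T), w T

/-- Negative correlation, also after conditioning: `I` is the set of elements forced to be in,
`J` the set of elements forced to be out. -/
def NegC {ι : Type} [Fintype ι] [DecidableEq ι] (w : Finset ι → ℝ) : Prop :=
  ∀ (I J : Finset ι) (e f : ι), e ≠ f → e ∉ I → e ∉ J → f ∉ I → f ∉ J → Disjoint I J →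
    NN w (insert e (insert f I)) J * NN w I (insert e (insert f J)) ≤
      NN w (insert e I) (insert f J) * NN w (insert f I) (insert e J)

/-- The squared determinant of the `m` vectors `b i`, `i ∈ T`, of `ℝ^m`
(`0` when `T` does not have `m` elements). -/
noncomputable def wt {ι : Type} {m : ℕ} (b : ι → Fin m → ℝ) (T : Finset ι) : ℝ :=
  if T.card = m then (∑ i ∈ T, Matrix.vecMulVec (b i) (b i)).det else 0

/-- Connection in the multigraph with vertex set `V` modulo `r` and edges `i ∈ T` joining
`p i` to `q i`. -/
def IConn {V ι : Type} (r : Setoid V) (p q : ι → V) (T : Set ι) (a b : V) : Prop :=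
  Relation.EqvGen (fun a b => r a b ∨ ∃ i ∈ T, a = p i ∧ b = q i) a b

/-- `T` is a maximal spanning forest of the multigraph with vertex set `V` modulo `r` and
edges `i : ι` joining `p i` to `q i`. -/
def ITree {V ι : Type} (r : Setoid V) (p q : ι → V) (T : Set ι) : Prop :=
  (∀ i, IConn r p q T (p i) (q i)) ∧ ∀ i ∈ T, ¬ IConn r p q (T \ {i}) (p i) (q i)

/-- `k` is a monotone coupling kernel from the uniform measure on the finite family `Y` to the
uniform measure on the finite family `X`: `k s u ∈ X` contains `s ∈ Y`, and if `s` is uniform on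
`Y` and `u` uniform on `[0,1]`, then `k s u` is uniform on `X`. -/
def IsKer {α : Type} (Y X : Finset (Finset α)) (k : Finset α → unitInterval → Finset α) : Prop :=
  (∀ s ∈ Y, ∀ u, k s u ∈ X ∧ s ⊆ k s u) ∧ (∀ s t, MeasurableSet {u | k s u = t}) ∧
    ∀ t ∈ X, (∑ s ∈ Y, (volume : Measure unitInterval) {u | k s u = t}) * X.card = Y.card

open Classical in
/-- A fixed choice of monotone coupling kernels for families of edge sets on `ℕ`. -/
noncomputable def kern (Y X : Finset (Finset (Sym2 ℕ))) :
    Finset (Sym2 ℕ) → unitInterval → Finset (Sym2 ℕ) :=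
  if h : ∃ k, IsKer Y X k then h.choose else fun s _ => s

/-! ## Graphs -/

/-- Locally finite graphs. -/
def LF {V : Type} (G : SimpleGraph V) : Prop := ∀ x, {y | G.Adj x y}.Finite

/-- The component of `x` in the graph `G` minus the vertex set `B` (just `{x}` if `x ∈ B`). -/
def comp {V : Type} (G : SimpleGraph V) (B : Set V) (x : V) : Set V :=
  {y | Relation.ReflTransGen (fun u v => G.Adj u v ∧ u ∉ B ∧ v ∉ B) x y}

open Classical in
/-- The finite set of the edges of `G` with an endpoint in the finite set `B`. -/
noncomputable def tch {V : Type} (G : SimpleGraph V) (B : Finset V) : Finset (Sym2 V) :=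
  if h : (touch G (B : Finset V)).Finite then h.toFinset else ∅

open Classical in
/-- The probability that the wired spanning tree of `B` contains all the edges of `A`. -/
noncomputable def pin {V : Type} (G : SimpleGraph V) (B : Finset V) (A : Finset (Sym2 V)) : ℝ :=
  ((trees (wired B) (tch G B)).filter (fun T => A ⊆ T)).card / (trees (wired B) (tch G B)).card

/-! ## Cells -/

open Classical in
/-- `k`-step transition probability of simple random walk from `x` to `v`. -/
noncomputable def stp {V : Type} (G : SimpleGraph V) (k : ℕ) (x v : V) : ℝ≥0∞ :=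
  (avg G)^[k] (fun w => if w = v then 1 else 0) x

/-- Average occupation of `v` by simple random walk from `x` up to time `n`. -/
noncomputable def occ {V : Type} (G : SimpleGraph V) (n : ℕ) (x v : V) : ℝ≥0∞ :=
  (∑ k ∈ Finset.range (n + 1), stp G k x v) / ((n + 1 : ℕ) : ℝ≥0∞)

/-- With the labels `b`, the weights `p` select the vertex `v`: the ratio `- log (b v) / p v` is
strictly smaller than all the other ratios `- log (b w) / p w`. -/
def Sel {V : Type} (p : V → ℝ≥0∞) (b : V → unitInterval) (v : V) : Prop :=
  p v ≠ 0 ∧ ∀ w, w ≠ v → p w ≠ 0 →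
    (- Real.log (b v)) / (p v).toReal < (- Real.log (b w)) / (p w).toReal

/-- The vertices with a neighbour in another cell. -/
def Bs {V : Type} (G : SimpleGraph V) (n : ℕ) (b : V → unitInterval) : Set V :=
  {x | ∃ y, G.Adj x y ∧ ¬ ∃ v, Sel (occ G n x) b v ∧ Sel (occ G n y) b v}

/-! ## The process of trees -/

open Classical in
/-- Rank of the vertex `x` among the endpoints of the edges of `E`, in the order given by the
labels `a`. -/
noncomputable def rk {V : Type} (a : V → unitInterval) (E : Finset (Sym2 V)) (x : V) : ℕ :=
  ((E.biUnion fun e => e.toFinset).filter fun y => a y < a x).card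

open Classical in
/-- Image of an edge set under a map of the vertices. -/
noncomputable def img {V : Type} (ρ : V → ℕ) (T : Finset (Sym2 V)) : Finset (Sym2 ℕ) :=
  T.image (Sym2.map ρ)

/-- Image of a family of edge sets under a map of the vertices. -/
noncomputable def fam {V : Type} (ρ : V → ℕ) (X : Finset (Finset (Sym2 V))) :
    Finset (Finset (Sym2 ℕ)) :=
  X.image (img ρ)

/-- One step of the construction: `S` is a wired spanning tree outside `B`; in every finite
component `C` of the complement of `B'` (with vertex of smallest label `x`) the edge set is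
enlarged to a wired spanning tree of `C`, with the coupling kernel and the label `u x`. -/
def step {V : Type} (G : SimpleGraph V) (B B' : Set V) (a u : V → unitInterval)
    (S : Set (Sym2 V)) : Set (Sym2 V) :=
  {e | ∃ (x : V) (C D : Finset V) (E T : Finset (Sym2 V)), x ∉ B' ∧ (C : Set V) = comp G B' x ∧
    (∀ y ∈ C, a x ≤ a y) ∧ (D : Set V) = (C : Set V) \ B ∧ (E : Set (Sym2 V)) = touch G C ∧
    (T : Set (Sym2 V)) = S ∩ E ∧ e ∈ E ∧
    Sym2.map (rk a E) e ∈ kern (fam (rk a E) (trees (wired D) E))
      (fam (rk a E) (trees (wired C) E)) (img (rk a E) T) (u x)}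

/-- The increasing sequence of random forests. -/
def Tn {V : Type} (G : SimpleGraph V) (B : ℕ → Set V) (a : V → unitInterval)
    (c : ℕ × V → unitInterval) : ℕ → Set (Sym2 V)
  | 0 => ∅
  | n + 1 => step G (B n) (B (n + 1)) a (fun x => c (n, x)) (Tn G B a c n)

/-! ## Unimodularity -/

/-- The mass-transport principle for the random rooted graph `(G, o)`, where `G` is a random graph
of law `μ` on the vertex set `V`: `f` runs over the measurable nonnegative functions of a graph and
two vertices that are invariant under relabelling the vertices. -/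
def MassTransport {V : Type} (o : V) (μ : Measure (SimpleGraph V)) : Prop :=
  ∀ f : SimpleGraph V → V → V → ℝ≥0∞, (∀ x y, Measurable fun G => f G x y) →
    (∀ (π : Equiv.Perm V) (G : SimpleGraph V) (x y : V), f (G.comap π) x y = f G (π x) (π y)) →
    ∫⁻ G, ∑' x, f G o x ∂μ = ∫⁻ G, ∑' x, f G x o ∂μ

end Pool.Agent.Run7.h59.UF
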