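import Pool.Agent.Run7.h59.UF.Defs

/-!
# Interface of the proof of `MP_688e31_pr` (full positive answer)

THEOREM. Let `(G, o)` be an almost surely recurrent unimodular random rooted graph. The wired
uniform spanning tree of `G` is a graph factor of i.i.d.

PROOF. (1) The Cesaro averages `occ G n x` of simple random walk on a connected recurrent graph
satisfy `‖occ G n x - occ G n y‖_1 → 0` for neighbours `x, y` (`S_RW`). By correlated sampling
(`Sel`, exponential clocks `- log (b v)`, `S_CS`) they give cells of bounded radius such that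
`P (x ∈ Bs G n b) → 0`, where `Bs G n b` is the set of the vertices with a neighbour in another
cell (`S_CELL`). By unimodularity there are `n 0, n 1, ...` such that almost surely every vertex
is in finitely many `Bs G (n j) (b j)` only (`S_SEQ`). Put `B 0 = V` and
`B (k+1) = ⋃_{j ≥ k} Bs G (n j) (b j)`: decreasing to the empty set, and `G \ B k` has only finite
components.
(2) If more vertices are identified then the uniform spanning tree decreases stochastically
(Feder-Mihail; `S_NC`, `S_FM`, `S_REP`, `S_MRG`, `S_DOM`). For a finite component `C` of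
`G \ B (k+1)` let `D = C \ B k`. The wired spanning tree of `D` is stochastically dominated by the
wired spanning tree of `C`; so there is a monotone coupling kernel (`S_HALL`, `S_KER`). The wired
spanning tree of `D` is the product of the wired spanning trees of the components of `D`
(`S_FACT`). So one can enlarge `T k` to `T (k+1)` independently in the components of `G \ B (k+1)`
(`step`, `Tn`; the labels `a` break all symmetries, `rk`), and `T k` restricted to the edges
touching a component `C` of `G \ B k` is a wired spanning tree of `C` (`S_LAW`). The union of the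
`T k` is the wired spanning tree (`S_MONO`, `S_LIM`).

Every piece below is a closed proposition with its proof in the comment. Write
`theorem t_X : (S_Y → ...) → S_X` in your own directory `Pool/Agent/Run7/<you>/UF/<X>.lean`
(import `Pool.Agent.Run7.h59.UF.Iface`), land it, and put the module name in `h59_pieces`.
-/

set_option autoImplicit false

open MeasureTheory ProbabilityTheory Set Filter Topology
open scoped ENNReal

namespace Pool.Agent.Run7.h59.UF

open Pool.Agent.TH968.UST

/-! ## A. Spanning trees -/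

/-- NC (about 250 lines). The weights `wt b` are nonnegative and negatively correlated.
PROOF. (i) `wt b T` for `T.card = m` is the determinant of the positive semidefinite matrix
`∑ b_i b_iᵀ` (`Matrix.PosSemidef.det_nonneg`).
(ii) Cauchy-Binet (in the tree: `Pool.Agent.H574R2.D9.CB`, `Pool.Agent.H801R3.SB.CB`, ...) gives
`det (∑ i, x i • b_i b_iᵀ) = ∑_{T, |T| = m} (∏ i ∈ T, x i) * wt b T` for all real `x`.
(iii) Fix disjoint `I, J` and `e ≠ f` outside, and `t > 0`; let `x i = t` for `i ∈ I`, `x i = 0` for
`i ∈ J`, `x i = 1` for the other `i ∉ {e, f}`, and `L = ∑_{i ≠ e, f} x i • b_i b_iᵀ` (positive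
semidefinite). Let `α(t) = det L`, and `α + β = det (L + b_e b_eᵀ)`,
`α + γ = det (L + b_f b_fᵀ)`, `α + β + γ + δ = det (L + b_e b_eᵀ + b_f b_fᵀ)`. By (ii)
`α, β, γ, δ` are the sums of `t ^ |T ∩ I| * wt b T` over the `T` disjoint from `J` which contain
none of `e, f`; `e` only; `f` only; both. Claim: `α δ ≤ β γ`. If `det L = 0` then `α = 0` and
`β, γ ≥ 0`. Otherwise, with `A = b_eᵀ L⁻¹ b_e`, `C = b_fᵀ L⁻¹ b_f`, `D = b_eᵀ L⁻¹ b_f` the matrix
determinant lemma gives `β = α A`, `γ = α C`, `δ = α (A C - D²)`.
(iv) Divide `α(t), β(t), γ(t), δ(t)` by `t ^ |I|` and let `t → ∞`: the limits are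
`NN w I (e, f, J)`, `NN w (e, I) (f, J)`, `NN w (f, I) (e, J)`, `NN w (e, f, I) J`
(`t ^ |T ∩ I| / t ^ |I| → 1` if `I ⊆ T` and `→ 0` otherwise). -/
def S_NC : Prop := ∀ (ι : Type) [Fintype ι] [DecidableEq ι] (m : ℕ) (b : ι → Fin m → ℝ),
  (∀ T, 0 ≤ wt b T) ∧ NegC (wt b)

open Classical in
/-- FM (about 250 lines). The Feder-Mihail theorem.
PROOF. Write `N(I, J) = NN w I J` and `N_A(I, J)` for the weight of the `T` with `I ⊆ T`,
`T ∩ J = ∅` and `A (T.erase e)`. Claim (*): for disjoint `I, J` not containing `e`,
`N_A(I+e, J) * N(I, J+e) ≤ N_A(I, J+e) * N(I+e, J)`. Induction on the number of elements of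
`R = ι \ (I ∪ J ∪ {e})`. Trivial if `N_A(I+e, J) = 0` or `N(I, J+e) = 0`. Otherwise all `T` of
nonzero weight have `m` elements, so `m ≥ |I| + 1`.
Case `m = |I| + 1`: the only `T` of nonzero weight with `I + e ⊆ T` is `I + e`; so `A I` holds, so
`A` holds for every `T ⊇ I`, so `N_A(I, J+e) = N(I, J+e)` and (*) is an equality or better.
Case `m > |I| + 1` (in particular `R` is nonempty). For `f ∈ R` put
`a1 = N_A(I+e+f, J)`, `a0 = N_A(I+e, J+f)`, `n1 = N(I+e+f, J)`, `n0 = N(I+e, J+f)`,
`b1 = N_A(I+f, J+e)`, `b0 = N_A(I, J+e+f)`, `k1 = N(I+f, J+e)`, `k0 = N(I, J+e+f)`.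
Since `∑_{f ∈ R} 1[f ∈ T] = m - |I| - 1` for every `T` of nonzero weight with `I + e ⊆ T`,
`T ∩ J = ∅`, one has `∑_{f ∈ R} a1(f) * N(I+e, J) = (m-|I|-1) N_A(I+e, J) N(I+e, J)
= ∑_{f ∈ R} n1(f) * N_A(I+e, J)`, and this is positive; so there is `f ∈ R` with
`n1 > 0` and `a1 * (n1 + n0) ≥ n1 * (a1 + a0)`, that is `a1 * n0 ≥ n1 * a0` (if for all `f` with
`n1(f) > 0` the strict opposite inequality held then the sums would differ; `a1(f) ≤ n1(f)`).
Induction: `a1 k1 ≤ b1 n1` and `a0 k0 ≤ b0 n0`; hypothesis: `n1 k0 ≤ n0 k1`. To prove: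
`(a1 + a0) (k1 + k0) ≤ (b1 + b0) (n1 + n0)`. If `n0 = 0` then `a0 = 0` (as `a0 ≤ n0`) and `k0 = 0`.
Otherwise multiply by `n1 n0 > 0`: the difference of the two sides is at least
`(a1 n0 - a0 n1) (k1 n0 - k0 n1) ≥ 0`. Finally take `I = J = ∅` in (*). -/
def S_FM : Prop := ∀ (ι : Type) [Fintype ι] [DecidableEq ι] (w : Finset ι → ℝ) (m : ℕ),
  (∀ T, 0 ≤ w T) → (∀ T, w T ≠ 0 → T.card = m) → NegC w →
  ∀ A : Finset ι → Prop, (∀ s t, s ⊆ t → A s → A t) → ∀ e : ι,
    (∑ T ∈ Finset.univ.filter (fun T : Finset ι => e ∈ T ∧ A (T.erase e)), w T) *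
      (∑ T ∈ Finset.univ.filter (fun T : Finset ι => e ∉ T), w T) ≤
    (∑ T ∈ Finset.univ.filter (fun T : Finset ι => e ∉ T ∧ A T), w T) *
      (∑ T ∈ Finset.univ.filter (fun T : Finset ι => e ∈ T), w T)

/-- REP (about 250 lines). Spanning trees are the bases of a unimodular vector configuration.
PROOF. Let `Q = Quotient r`, `β i = single [p i] 1 - single [q i] 1` in `Q →₀ ℝ`, `S` the span of
the `β i` (finite dimensional), `m = finrank S`, `φ : S ≃ₗ (Fin m → ℝ)`, `b i = φ (β i)`.
(i) If `IConn r p q T x y` then `single [x] 1 - single [y] 1` is in the `ℤ`-span of the `β i`,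
`i ∈ T` (induction on `EqvGen`). (ii) If `single [x] 1 - single [y] 1` is in the real span of the
`β i`, `i ∈ T`, then `IConn r p q T x y`: apply the linear functional which sums the coordinates of
the classes `[z]` with `IConn r p q T x z` (well defined); it vanishes on `β i`, `i ∈ T`, and is
`1 - 1[IConn x y]` on the vector. So `ITree r p q T` iff `(β i)_{i ∈ T}` spans `S` and is linearly
independent, i.e. iff `T.card = m` and the determinant of the square matrix `M_T` with rows `b i`,
`i ∈ T` (rows indexed by `Fin m` through any bijection), is nonzero. Also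
`∑_{i ∈ T} vecMulVec (b i) (b i) = M_Tᵀ M_T`, so `wt b T = (det M_T)²` if `T.card = m`.
(iii) If `T, T'` both satisfy `ITree`, by (i) `M_T' = Z M_T` with `Z` an integer matrix, and
`M_T = Z' M_T'`; so `det Z * det Z' = 1` in `ℤ` and `det Z = ±1`: `wt b T = wt b T'`.
Take `c` this common value (there is at least one `ITree`, but `c = 1` would do if there
were none). -/
def S_REP : Prop := ∀ (V ι : Type) [Fintype ι] [DecidableEq ι] (r : Setoid V) (p q : ι → V),
  ∃ (m : ℕ) (b : ι → Fin m → ℝ) (c : ℝ), 0 < c ∧
    ∀ T : Finset ι, (ITree r p q (T : Set ι) → wt b T = c) ∧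
      (¬ ITree r p q (T : Set ι) → wt b T = 0)

/-- Identify the classes of `a` and `b`. -/
def mrg {V : Type} (r : Setoid V) (a b : V) : Setoid V where
  r x y := r x y ∨ ((r x a ∨ r x b) ∧ (r y a ∨ r y b))
  iseqv := by
    refine ⟨fun x => Or.inl (r.refl x), ?_, ?_⟩
    · rintro x y (h | ⟨h1, h2⟩)
      · exact Or.inl (r.symm h)
      · exact Or.inr ⟨h2, h1⟩
    · rintro x y z (h | ⟨h1, h2⟩) (h' | ⟨h3, h4⟩)
      · exact Or.inl (r.trans h h')
      · exact Or.inr ⟨h3.imp (r.trans h) (r.trans h), h4⟩
      · exact Or.inr ⟨h1, h2.imp (r.trans (r.symm h')) (r.trans (r.symm h'))⟩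
      · exact Or.inr ⟨h1, h4⟩

open Classical in
/-- MRG (about 200 lines; from `S_NC`, `S_FM`, `S_REP`). Domination for one identification.
PROOF. Take `ι = Option E` with `p, q` the two endpoints of the edge `e : E` (use `Quot.out`) and
`p none = a`, `q none = b`. For `T ⊆ E`: (i) since `Conn r E a b`, the set `some '' T` is an
`ITree` iff `T ∈ trees r E`; (ii) since `¬ r a b`, the set `{none} ∪ some '' T` is an `ITree` iff
`T ∈ trees (mrg r a b) E`. [For both: `IConn r p q (some '' T) = Conn r T`,
`IConn r p q ({none} ∪ some '' T) = Conn (mrg r a b) T`; in (ii) the minimality at `none` says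
`¬ Conn r T a b`. `←`: if `T ∈ trees (mrg r a b) E` and `Conn r T a b`, take a shortest `r`-`T`-path
from `a` to `b`; as `¬ r a b` it uses an edge `g ∈ T`, exactly once for a suitable choice, and then
the endpoints of `g` are connected in `mrg r a b` and `T \ {g}`, contradiction. A cleaner way:
let `g ∈ T` be such that `Conn r (T \ {g}) a b` fails for a minimal subset
`T0 ⊆ T` with `Conn r T0 a b`; `T0` is nonempty since `¬ r a b`.] Apply `S_FM` with `w = wt b`
(`c` cancels; NegC and homogeneity from `S_NC` and the definition of `wt`), the event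
`fun T => A (image of T minus none in Finset (Sym2 V))`, and `e = none`. -/
def S_MRG : Prop := ∀ (V : Type) (r : Setoid V) (E : Finset (Sym2 V)) (a b : V),
  ¬ r a b → Conn r (E : Set (Sym2 V)) a b →
  ∀ A : Finset (Sym2 V) → Prop, (∀ s t, s ⊆ t → A s → A t) →
    ((trees (mrg r a b) E).filter A).card * (trees r E).card ≤
      ((trees r E).filter A).card * (trees (mrg r a b) E).card

/-- NE (about 60 lines). There is a spanning tree: take `T ⊆ E` with the fewest elements among
those with `∀ s(a,b) ∈ E, Conn r T a b` (`E` is one). -/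
def S_NE : Prop := ∀ (V : Type) (r : Setoid V) (E : Finset (Sym2 V)), (trees r E).Nonempty

/-- RES (about 60 lines). `trees r E` depends only on the restriction of `r` to a set `W` containing
the endpoints of the edges of `E`. PROOF: if `r, r'` agree on `W` and the endpoints of `T` are in
`W`, then for `x, y ∈ W`, `Conn r T x y ↔ Conn r' T x y`: the relation
`R x y := r x y ∨ ∃ u v ∈ W, r x u ∧ Conn r' T u v ∧ r v y` is an equivalence relation containing
the generators of `Conn r T`, and for `x, y ∈ W` it gives `Conn r' T x y`. -/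
def S_RES : Prop := ∀ (V : Type) (r r' : Setoid V) (W : Set V) (E : Finset (Sym2 V)),
  (∀ e ∈ E, ∀ x ∈ e, x ∈ W) → (∀ x ∈ W, ∀ y ∈ W, r x y ↔ r' x y) → trees r E = trees r' E

open Classical in
/-- DOM (about 150 lines; from `S_MRG`, `S_NE`, `S_RES`). Domination in general.
PROOF. Let `W` be the finite set of the endpoints of the edges of `E`. Induction on the number of
pairs `(a, b) ∈ W × W` with `r' a b` and not `r a b`. If it is zero use `S_RES`. Otherwise choose
such a pair `a, b`, let `r1 = mrg r a b`; `r ≤ r1 ≤ r'`, `Conn r ≤ Conn r1`, so the hypothesis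
holds for `r1, r'`; combine `S_MRG` for `r, r1` with the induction hypothesis for `r1, r'`
(`(trees r1 E).card > 0` by `S_NE`). -/
def S_DOM : Prop := ∀ (V : Type) (r r' : Setoid V) (E : Finset (Sym2 V)),
  (∀ a b, r a b → r' a b) → (∀ a b, r' a b → Conn r (E : Set (Sym2 V)) a b) →
  ∀ A : Finset (Sym2 V) → Prop, (∀ s t, s ⊆ t → A s → A t) →
    ((trees r' E).filter A).card * (trees r E).card ≤
      ((trees r E).filter A).card * (trees r' E).card

open Classical in
/-- HALL (about 120 lines). Stochastic domination gives a monotone coupling kernel.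
PROOF. Hall's theorem (`Finset.all_card_le_biUnion_card_iff_exists_injective` or
`Fintype.all_card_le_rel_image_card_iff_exists_injective`) for the relation `s ⊆ t` between
`Y × Fin |X|` and `X × Fin |Y|`: for a subset `Z` of the first set let
`A t := ∃ (s, i) ∈ Z, s ⊆ t`; then `|Z| ≤ #(Y.filter A) * |X| ≤ #(X.filter A) * |Y|`, the number of
neighbours of `Z`. The two sets have the same size, so the injection `f` is bijective. Let
`k s u = (f (s, ⌊|X| u⌋)).1` (cap the floor at `|X| - 1`; for `s ∉ Y` anything measurable,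
for instance `k s u = s`). Then
`volume {u | k s u = t} = #{i | (f (s, i)).1 = t} / |X|` and the sum over `s ∈ Y` is
`|Y| / |X|`. -/
def S_HALL : Prop := ∀ (α : Type) (X Y : Finset (Finset α)), X.Nonempty → Y.Nonempty →
  (∀ A : Finset α → Prop, (∀ s t, s ⊆ t → A s → A t) →
    (Y.filter A).card * X.card ≤ (X.filter A).card * Y.card) →
  ∃ k, IsKer Y X k

/-- LOOP (about 50 lines). Edges joining two identified vertices are in no tree.
PROOF. In a locally finite graph `touch G C` is finite (finite union over `v ∈ C` of images of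
neighbour sets), so `(tch G C : Set _) = touch G C`. If `T ∈ trees (wired D) (tch G C)` and `e ∈ T`
has no endpoint in `D` then its endpoints are identified by `wired D`, contradicting minimality.
Conversely the edges of `tch G C` without endpoint in `D` are trivially connected. -/
def S_LOOP : Prop := ∀ (V : Type) (G : SimpleGraph V), LF G → ∀ D C : Finset V, D ⊆ C →
  trees (wired D) (tch G C) = trees (wired D) (tch G D)

open Classical in
/-- FACT (about 200 lines). Wired spanning trees of a disjoint union of sets without edges between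
them.
PROOF. Each edge of `touch G D` is in `touch G C` for exactly one `C ∈ P` (an edge with endpoints in
`C` and `C' ≠ C` would join them). Let `T ⊆ touch G D`, `T_C = T ∩ touch G C`. Claim: for `C ∈ P`
and `x, y ∈ C ∪ Dᶜ`: `Conn (wired D) T x y ↔ Conn (wired C) T_C x y`. `→`: by induction on
`EqvGen`, for ALL `x y : V`, `Conn (wired D) T x y → Conn (wired C) T_C x y`, since a `wired D` step
is a `wired C` step, an edge of `T_C` is an edge, and an edge of `T` not in `touch G C` has both
endpoints outside `C`. `←`: by induction on `EqvGen`, for all `x, y : V`,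
`Conn (wired C) T_C x y → Conn (wired D) T (g x) (g y)`, where `g` is the identity on `C` and on
`Dᶜ` and sends `D \ C` to one fixed vertex `z ∉ D`; if there is no `z ∉ D` (that is
`D = V`), then there is no edge between `C` and its complement; handle this case by
the same induction with the statement `x ∈ C ∧ y ∈ C ∧ Conn (wired D) T x y ∨ x ∉ C ∧ y ∉ C`.
The endpoints of the edges of `T_C` are in `C ∪ Dᶜ`. Now translate `IsSpan`: connectivity and
minimality are checked edge by edge, and `(T \ {e})_C = T_C \ {e}`. -/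
def S_FACT : Prop := ∀ (V : Type) (G : SimpleGraph V), LF G →
  ∀ (P : Finset (Finset V)) (D : Finset V), (∀ x, x ∈ D ↔ ∃ C ∈ P, x ∈ C) →
  (∀ C ∈ P, ∀ C' ∈ P, C ≠ C' → Disjoint C C' ∧ ∀ x ∈ C, ∀ y ∈ C', ¬ G.Adj x y) →
  (∀ T : Finset (Sym2 V), T ∈ trees (wired D) (tch G D) ↔
    T ⊆ tch G D ∧ ∀ C ∈ P, T ∩ tch G C ∈ trees (wired C) (tch G C)) ∧
  (trees (wired D) (tch G D)).card = ∏ C ∈ P, (trees (wired C) (tch G C)).card

/-- KER (about 60 lines; from `S_DOM`, `S_HALL`, `S_NE`).
PROOF. For `G` connected, `Conn (wired C) (touch G C) x y` holds for all `x, y`: follow a walk; each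
edge is in `touch G C` or has both endpoints outside `C`. And `wired C ≤ wired D`. -/
def S_KER : Prop := ∀ (V : Type) (G : SimpleGraph V), G.Connected → LF G →
  ∀ D C : Finset V, D ⊆ C → ∃ k, IsKer (trees (wired D) (tch G C)) (trees (wired C) (tch G C)) k

/-- MONO (about 60 lines; from `S_DOM`, `S_LOOP`, `S_NE`). -/
def S_MONO : Prop := ∀ (V : Type) (G : SimpleGraph V), G.Connected → LF G →
  ∀ (B B' : Finset V) (A : Finset (Sym2 V)), B ⊆ B' → pin G B A ≤ pin G B' A

/-- LIM (about 150 lines; from `S_MONO`). Identification of the limit law.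
PROOF. For a finite set `A` let `p A = ⨆ B, pin G B A` (bounded by `1`). By `S_MONO` and
exhaustion, `pin G (B n) A → p A`. Inclusion-exclusion:
`ustProb (wired B) (touch G B) F A = ∑_{A ⊆ A' ⊆ F} (-1) ^ |A' \ A| * pin G B A'`, since
`1[T ∩ F = A] = 1[A ⊆ T] * ∏_{e ∈ F \ A} (1 - 1[e ∈ T])` (`Finset.prod_one_sub` style expansions,
or induction on `F \ A`), and the same for the random set `Φ`. (The `ncard` in `ustProb` are the
cardinalities of `trees (wired B) (tch G B)` and of a filter of it: a set `T` with
`IsSpan r E T` is a subset of the finite set `E`.) An alternative without inclusion-exclusion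
formula: induction on `(F \ A).card` for the statement that
`P (A ⊆ T, T ∩ (F \ A) = ∅)` converges, using
`P (A ⊆ T, T ∩ (e, R) = ∅) = P (A ⊆ T, T ∩ R = ∅) - P (e, A ⊆ T, T ∩ R = ∅)`. -/
def S_LIM : Prop := ∀ (V : Type) [Countable V] (G : SimpleGraph V), G.Connected → LF G →
  ∀ (Ω : Type) [MeasurableSpace Ω] (P : Measure Ω) [IsProbabilityMeasure P] (Φ : Ω → Set (Sym2 V)),
  Measurable Φ → (∀ A : Finset (Sym2 V), P {ω | (A : Set (Sym2 V)) ⊆ Φ ω} =
    ENNReal.ofReal (⨆ B : Finset V, pin G B A)) →
  ∀ B : ℕ → Finset V, Monotone B → (∀ v, ∃ n, v ∈ B n) → ∀ F A : Finset (Sym2 V), A ⊆ F →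
    Tendsto (fun n => ustProb (wired (B n)) (touch G (B n)) F A) atTop
      (𝓝 (P.real {ω | Φ ω ∩ F = A}))

/-! ## B. Cells -/

/-- RW (about 200 lines). Cesaro averages of the walk from neighbours merge.
PROOF. Let `g : V → [0,1]` and `u n x = ∑_{k < n} (avg G)^[k] g x` (real or `ℝ≥0∞` valued; all values
are at most `n`; `avg G` is additive and monotone). Fix `y` and let `h k x = hit G y k x`, and
`c n x = ∑_{k < n} (1 - h k x)`. Claim: `|u n x - u n y| ≤ c n x` for all `x` (in `ℝ≥0∞`:
`u n x ≤ u n y + c n x` and `u n y ≤ u n x + c n x`). Induction on `n`; trivial for `x = y`; for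
`x ≠ y`: `u (n+1) x = g x + avg (u n) x`, `u (n+1) y = u n y + (avg G)^[n] g y`, both extra terms in
`[0,1]`, and `c (n+1) x = 1 + avg (c n) x` because `h (k+1) x = avg (h k) x`, `h 0 x = 0` (every
vertex has a neighbour since `G` is connected with an edge, and finitely many, so that
`avg 1 = 1`).
Since `G` is recurrent, `⨆ n, avg G (hit G y n) y = 1`, so (finitely many neighbours, `hit ≤ 1`,
monotone in `n`) `⨆ n, hit G y n x = 1` for every neighbour `x` of `y`. So `1 - h k x → 0` and
`c n x / n → 0` (Cesaro). Take for `g` the indicators of the sets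
`{v | occ G n x v > occ G n y v}` and `{v | occ G n x v < occ G n y v}`
(`∑_{v ∈ S} stp G k x v = (avg G)^[k] (indicator of S) x`, monotone convergence / finiteness). -/
def S_RW : Prop := ∀ (V : Type) [Countable V] (G : SimpleGraph V), G.Connected → LF G →
  Recurrent G → ∀ x y, G.Adj x y →
    Tendsto (fun n => ∑' v, ((occ G n x v - occ G n y v) + (occ G n y v - occ G n x v)))
      atTop (𝓝 0)

/-- OCC (about 120 lines). Total mass one, finite supports, measurability and equivariance of
`occ`. `stp G k x v ≠ 0` implies that there is a walk of length `k` from `x` to `v`; in a locally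
finite graph the balls are finite, and walks can be reversed. -/
def S_OCC : Prop := ∀ (V : Type) [Countable V],
  (∀ (G : SimpleGraph V), LF G → (∀ x, ∃ y, G.Adj x y) → ∀ n x, ∑' v, occ G n x v = 1) ∧
  (∀ (G : SimpleGraph V), LF G → ∀ n x, {v | occ G n x v ≠ 0}.Finite ∧
    {v | occ G n v x ≠ 0}.Finite) ∧
  (∀ n x v, Measurable fun G : SimpleGraph V => occ G n x v) ∧
  (∀ (G : SimpleGraph V) (π : Equiv.Perm V) n x v, occ (G.comap π) n x v = occ G n (π x) (π v))

/-- CS (about 200 lines). Correlated sampling with exponential clocks.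
PROOF. Let `m v = min (p v) (q v)`, `M v = max (p v) (q v)` (finitely supported),
`E v = - log (b v)`: `P (E v > t) = exp (-t)`. For `v` with `m v ≠ 0` let
`H v = {b | ∀ w ≠ v with M w ≠ 0, E w / M w > E v / m v}`. On `H v` (and `b ≠ 0` everywhere, a.s.)
both `Sel p b v` and `Sel q b v` hold. The events `H v` are pairwise disjoint, and by independence
(integrate over `b v`, product over the finitely many other `w`)
`P (H v) = ∫_0^1 ∏_w (b v) ^ (M w / m v) = 1 / (1 + ∑_{w ≠ v} M w / m v) ≥ m v / ∑_w M w`. So
`P (∃ v, Sel p b v ∧ Sel q b v) ≥ ∑ m / ∑ M = (1 - δ) / (1 + δ) ≥ 1 - 2 δ`, where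
`∑ M = 1 + δ`, `∑ m = 1 - δ` and `2 δ = ∑ |p - q|`. -/
def S_CS : Prop := ∀ (V : Type) [Countable V] (p q : V → ℝ≥0∞),
  {v | p v ≠ 0}.Finite → {v | q v ≠ 0}.Finite → ∑' v, p v = 1 → ∑' v, q v = 1 →
    unif V {b | ¬ ∃ v, Sel p b v ∧ Sel q b v} ≤ ∑' v, ((p v - q v) + (q v - p v))

/-- CELL (about 150 lines; from `S_RW`, `S_OCC`, `S_CS`). The sets `Bs G n b`.
PROOF. (i) `Sel p b v` and `Sel p b v'` imply `v = v'`. If `x, y ∉ Bs` are adjacent, the common
selected vertex is the same for `x` and `y`; so on the component of `x` in the complement of `Bs`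
all vertices select the same `v` (if `x` has no neighbour in it, the component is `{x}`), and it is
contained in the finite set `{y | occ G n y v ≠ 0}`. (ii) union bound over the finitely many
neighbours, `S_CS` and `S_RW`. (iii) countable unions and intersections of measurable conditions.
(iv) transport along `π`. -/
def S_CELL : Prop := ∀ (V : Type) [Countable V],
  (∀ (G : SimpleGraph V), LF G → ∀ n b x, x ∉ Bs G n b → (comp G (Bs G n b) x).Finite) ∧
  (∀ (G : SimpleGraph V), G.Connected → LF G → Recurrent G →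
    ∀ x, Tendsto (fun n => unif V {b | x ∈ Bs G n b}) atTop (𝓝 0)) ∧
  (∀ n, Measurable fun z : SimpleGraph V × (V → unitInterval) => Bs z.1 n z.2) ∧
  (∀ (G : SimpleGraph V) (π : Equiv.Perm V) n b, Bs (G.comap π) n (b ∘ π) = π ⁻¹' Bs G n b)

/-- SEQ (about 200 lines; from `S_CELL`). The choice of the subsequence, and from the root to all
vertices.
PROOF. `∫⁻ G, unif V {b | o ∈ Bs G n b} ∂μ → 0` by dominated convergence; choose `n k` such that it
is at most `2 ^ (-k)`. By Borel-Cantelli for `μ ⊗ unif (ℕ × V)` (or: the sum over `k` of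
`unif V {b | o ∈ Bs G (n k) b}` is finite for almost every `G`), for almost every `G`, almost every
`b`, `o ∈ Bs G (n k) (b k)` for finitely many `k` only. Let `f G x y` be the probability over `b`
that `y ∈ Bs G (n k) (b k)` for infinitely many `k`: measurable in `G`, invariant under relabelling
(change of variables `b ↦ b ∘ π`, the law of `b` is invariant). `MassTransport` gives
`∫⁻ G, ∑' x, f G o x = ∫⁻ G, ∑' x, f G x o = 0`, so for almost every `G`, `f G o x = 0` for
all `x`. -/
def S_SEQ : Prop := ∀ (V : Type) [Countable V] (o : V) (μ : Measure (SimpleGraph V))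
  [IsProbabilityMeasure μ], (∀ᵐ G ∂μ, G.Connected ∧ LF G ∧ Recurrent G) → MassTransport o μ →
  ∃ n : ℕ → ℕ, ∀ᵐ G ∂μ, ∀ x, ∀ᵐ b ∂(unif (ℕ × V)),
    ∃ K, ∀ k, K ≤ k → x ∉ Bs G (n k) fun v => b (k, v)

/-! ## C. Labels and the process -/

/-- PSI (about 250 lines). One uniform label gives countably many independent uniform labels.
PROOF. There is a measurable `ψ : [0,1] → [0,1]^ℕ` which maps the uniform law to `unif ℕ` (binary
digits: the digits of a uniform variable are i.i.d. fair bits, split them along `ℕ ≃ ℕ × ℕ` and sum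
up again; perhaps Mathlib or the tree already has it). Split `ℕ` into `{0}`, odd and
even positive numbers and use `infinitePi_map_piCurry`, `infinitePi_map_pi`,
`infinitePi_map_piCongrLeft`; to identify the joint law use `eq_infinitePi` or pi-systems. -/
def S_PSI : Prop := ∃ (α : unitInterval → unitInterval) (β γ : unitInterval → ℕ → unitInterval),
  Measurable α ∧ Measurable β ∧ Measurable γ ∧ ∀ (V : Type) [Countable V],
    (unif V).map (fun U => ((fun v => α (U v)), (fun p : ℕ × V => β (U p.2) p.1),
      (fun p : ℕ × V => γ (U p.2) p.1))) =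
    (unif V).prod ((unif (ℕ × V)).prod (unif (ℕ × V)))

/-- TM (about 200 lines). Measurability of the process `Tn`. All the existential quantifiers in
`step` run over countable types; for fixed `x, C, D, E, T` the conditions `x ∉ B'`,
`C = comp G B' x` (pointwise `y ∈ comp G B' x`, a countable union over walks or finite induction on
the length of `ReflTransGen`), `a x ≤ a y`, `E = touch G C`, `T = S ∩ E` are measurable;
for the last one split according to the values of `rk a E y` for `y` an endpoint of an edge of `E`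
(finitely many natural numbers; then `fam`, `img` are constant), and use the measurability of
`kern` in `u` (both cases of the definition). -/
def S_TM : Prop := ∀ (V : Type) [Countable V] (Ω : Type) [MeasurableSpace Ω]
  (G : Ω → SimpleGraph V) (B : Ω → ℕ → Set V) (a : Ω → V → unitInterval)
  (c : Ω → ℕ × V → unitInterval), Measurable G → (∀ n, Measurable fun ω => B ω n) →
  Measurable a → Measurable c → ∀ n, Measurable fun ω => Tn (G ω) (B ω) (a ω) (c ω) n

/-- TE (about 200 lines). Equivariance of the process `Tn`: induction on `n`; every ingredient of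
`step` (`comp`, `touch`, `wired`, `trees`, `rk`, `img`, `fam`) is transported by `π`:
`rk (a ∘ π) (E.image (Sym2.map π.symm)) (π.symm x) = rk a E x`,
`trees (wired (π.symm C)) (π.symm E) = π.symm (trees (wired C) E)`, so the arguments of `kern` are
EQUAL for the two sides. -/
def S_TE : Prop := ∀ (V : Type) (G : SimpleGraph V) (B : ℕ → Set V) (a : V → unitInterval)
  (c : ℕ × V → unitInterval) (π : Equiv.Perm V) (n : ℕ),
  Tn (G.comap π) (fun n => π ⁻¹' B n) (a ∘ π) (fun p => c (p.1, π p.2)) n =
    Sym2.map π ⁻¹' Tn G B a c n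

/-- LAW (owner helper59; from `S_KER`, `S_FACT`, `S_LOOP`, `S_MONO`, `S_NE`). The law of the
process. -/
def S_LAW : Prop := ∀ (V : Type) [Countable V] (G : SimpleGraph V), G.Connected → LF G →
  ∀ B : ℕ → Set V, Antitone B → B 0 = univ → (∀ n x, x ∉ B n → (comp G (B n) x).Finite) →
  (∀ x, ∃ n, x ∉ B n) → ∀ a : V → unitInterval, Function.Injective a →
  ∀ A : Finset (Sym2 V), unif (ℕ × V) {c | (A : Set (Sym2 V)) ⊆ ⋃ n, Tn G B a c n} =
    ENNReal.ofReal (⨆ B : Finset V, pin G B A)

/-- The main theorem (owner helper59; from all the pieces). -/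
def S_MAIN : Prop := ∀ (V : Type) [Countable V] (o : V) (μ : Measure (SimpleGraph V))
  [IsProbabilityMeasure μ], (∀ᵐ G ∂μ, G.Connected ∧ LF G ∧ Recurrent G) → MassTransport o μ →
  ∃ Φ : SimpleGraph V → (V → unitInterval) → Set (Sym2 V), Measurable (Function.uncurry Φ) ∧
    (∀ (π : Equiv.Perm V) G U, Φ (G.comap π) (U ∘ π) = Sym2.map π ⁻¹' Φ G U) ∧
    ∀ᵐ G ∂μ, (∀ U, Φ G U ⊆ G.edgeSet) ∧
      ∀ B : ℕ → Finset V, Monotone B → (∀ v, ∃ n, v ∈ B n) → ∀ F A : Finset (Sym2 V), A ⊆ F →
        Tendsto (fun n => ustProb (wired (B n)) (touch G (B n)) F A) atTop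
          (𝓝 ((unif V).real {U | Φ G U ∩ F = A}))

end Pool.Agent.Run7.h59.UF
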